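import Pool.Agent.Y645.UL.Bas

/-!
# Finitely many coefficients suffice for an algebraic relation
-/

namespace Pool.Agent.Y948.UL

open Polynomial Algebra
open Pool.Agent.Y645.UL

/-- every element of the algebra generated over the field is in the algebra generated by finitely
many more elements over the ring -/
theorem adj_fin {R K L : Type} [CommRing R] [Field K] [Field L] [Algebra R K] [Algebra K L]
    [Algebra R L] [IsScalarTower R K L] (S : Set L) {y : L} (hy : y ∈ adjoin K S) :
    ∃ C : Finset K, (∀ c ∈ C, c ≠ 0) ∧ y ∈ adjoin R (S ∪ (algebraMap K L) '' (C : Set K)) := by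
  classical
  have hmono : ∀ {C C' : Finset K}, C ⊆ C' → adjoin R (S ∪ (algebraMap K L) '' (C : Set K)) ≤
      adjoin R (S ∪ (algebraMap K L) '' (C' : Set K)) := fun h =>
    adjoin_mono (Set.union_subset_union_right S (Set.image_mono (Finset.coe_subset.2 h)))
  induction hy using adjoin_induction with
  | mem x hx =>
    exact ⟨∅, fun c hc => absurd hc (Finset.notMem_empty c), subset_adjoin (Or.inl hx)⟩
  | algebraMap r =>
    by_cases hr : r = 0
    · refine ⟨∅, fun c hc => absurd hc (Finset.notMem_empty c), ?_⟩
      rw [hr, map_zero]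
      exact zero_mem _
    · refine ⟨{r}, fun c hc => ?_, subset_adjoin (Or.inr ⟨r, ?_, rfl⟩)⟩
      · rw [Finset.mem_singleton] at hc
        rw [hc]
        exact hr
      · exact Finset.mem_coe.2 (Finset.mem_singleton_self r)
  | add x y _ _ hx hy =>
    obtain ⟨C, hC, h1⟩ := hx
    obtain ⟨C', hC', h2⟩ := hy
    refine ⟨C ∪ C', fun c hc => ?_, add_mem (hmono Finset.subset_union_left h1)
      (hmono Finset.subset_union_right h2)⟩
    rcases Finset.mem_union.1 hc with h | h
    · exact hC c h
    · exact hC' c h
  | mul x y _ _ hx hy =>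
    obtain ⟨C, hC, h1⟩ := hx
    obtain ⟨C', hC', h2⟩ := hy
    refine ⟨C ∪ C', fun c hc => ?_, mul_mem (hmono Finset.subset_union_left h1)
      (hmono Finset.subset_union_right h2)⟩
    rcases Finset.mem_union.1 hc with h | h
    · exact hC c h
    · exact hC' c h

theorem t_COEF : S_COEF := by
  classical
  intro R K L _ _ _ _ _ _ _ S a ha
  obtain ⟨p, hp0, hpa⟩ := ha
  choose C' hC' hmem using fun i : ℕ => adj_fin (R := R) (K := K) S (p.coeff i).2
  set C : Finset K := p.support.biUnion C' with hC
  refine ⟨C, ?_, ?_⟩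
  · intro c hc
    obtain ⟨i, -, hi⟩ := Finset.mem_biUnion.1 hc
    exact hC' i c hi
  · set T : Set L := S ∪ (algebraMap K L) '' (C : Set K) with hT
    set P : L[X] := p.map (algebraMap (adjoin K S) L) with hP
    have hcoef : ∀ i, P.coeff i ∈ adjoin R T := by
      intro i
      rw [hP, coeff_map]
      by_cases hi : i ∈ p.support
      · refine adjoin_mono ?_ (hmem i)
        refine Set.union_subset_union_right S (Set.image_mono (Finset.coe_subset.2 ?_))
        exact Finset.subset_biUnion_of_mem C' hi
      · rw [notMem_support_iff.1 hi, map_zero]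
        exact zero_mem _
    have hlift : P ∈ lifts (algebraMap (adjoin R T) L) := by
      rw [lifts_iff_coeff_lifts]
      intro i
      exact ⟨⟨P.coeff i, hcoef i⟩, rfl⟩
    obtain ⟨q, hq⟩ := (mem_lifts P).1 hlift
    refine ⟨q, ?_, ?_⟩
    · rintro rfl
      rw [Polynomial.map_zero] at hq
      apply hp0
      have hinj : Function.Injective (algebraMap (adjoin K S) L) := Subtype.val_injective
      exact (Polynomial.map_eq_zero_iff hinj).1 hq.symm
    · rw [aeval_def, ← eval_map, hq, hP, eval_map, ← aeval_def]
      exact hpa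

theorem t_INT : S_INT := by
  classical
  intro k L _ _ _ _ halg S a ha
  have : CharZero L := charZero_of_injective_algebraMap (algebraMap k L).injective
  obtain ⟨C, -, hC⟩ := t_COEF ℤ k L S a ha
  refine hC.adjoin_of_forall_isAlgebraic ?_
  rintro x ⟨hx, hxS⟩
  rcases hx with hx | ⟨c, -, rfl⟩
  · exact absurd hx hxS
  · have h1 : IsAlgebraic ℚ c := Algebra.IsAlgebraic.isAlgebraic c
    have h2 : IsAlgebraic ℤ c := (IsFractionRing.isAlgebraic_iff ℤ ℚ k).2 h1
    have h3 : IsAlgebraic ℤ (algebraMap k L c) := h2.algebraMap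
    exact h3.extendScalars (FaithfulSMul.algebraMap_injective ℤ (adjoin ℤ S))

end Pool.Agent.Y948.UL
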